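import Mathlib
import Pool.Agent.Helper37.KF.Stmts

/-!
# From the vector form (columns of length at most one) to Beck-Fiala (S12173)

`Komlos` is the real version of the statement; `beckFiala` is the literal form of S12173.
-/

set_option autoImplicit false

namespace Pool.Agent.Helper44.KC

open Finset

/-- the Komlos statement -/
def Komlos : Prop :=
  ∃ c : ℝ, 0 < c ∧
    ∀ (n d : ℕ) (v : Fin n → Fin d → ℝ),
      (∀ i, ∑ j, (v i j) ^ 2 ≤ 1) →
      ∃ ε : Fin n → ℝ, (∀ i, ε i = 1 ∨ ε i = -1) ∧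
        ∀ j : Fin d, |∑ i, ε i * v i j| ≤ c

/-- scaled version with integer signs -/
theorem komlos_scaled (hK : Komlos) :
    ∃ c : ℝ, 0 < c ∧
      ∀ (n d : ℕ) (t : ℝ) (v : Fin n → Fin d → ℝ), 0 ≤ t →
        (∀ i, ∑ j, (v i j) ^ 2 ≤ t) →
        ∃ x : Fin n → ℤ, (∀ i, x i = 1 ∨ x i = -1) ∧
          ∀ j : Fin d, |∑ i, (x i : ℝ) * v i j| ≤ c * Real.sqrt t := by
  obtain ⟨c, hc, h⟩ := hK
  refine ⟨c, hc, ?_⟩
  intro n d t v ht hv
  rcases eq_or_lt_of_le ht with h0 | h0
  · -- t = 0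
    refine ⟨fun _ => 1, fun _ => Or.inl rfl, ?_⟩
    intro j
    have hz : ∀ i, v i j = 0 := by
      intro i
      have h1 := hv i
      rw [← h0] at h1
      have h2 : (v i j) ^ 2 ≤ ∑ j, (v i j) ^ 2 :=
        Finset.single_le_sum (f := fun j => (v i j) ^ 2) (fun j _ => sq_nonneg _) (Finset.mem_univ j)
      nlinarith [sq_nonneg (v i j)]
    simp [hz, ← h0]
  · have hs : 0 < Real.sqrt t := Real.sqrt_pos.mpr h0
    obtain ⟨ε, hε, hj⟩ := h n d (fun i j => v i j / Real.sqrt t) (by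
      intro i
      have : ∑ j, (v i j / Real.sqrt t) ^ 2 = (∑ j, (v i j) ^ 2) / t := by
        rw [Finset.sum_div]
        refine Finset.sum_congr rfl (fun j _ => ?_)
        rw [div_pow, Real.sq_sqrt h0.le]
      rw [this]
      exact (div_le_one h0).mpr (hv i))
    refine ⟨fun i => if ε i = 1 then 1 else -1, ?_, ?_⟩
    · intro i
      by_cases h1 : ε i = 1
      · left; simp [h1]
      · right; simp [h1]
    · intro j
      have hcast : ∀ i, (((if ε i = 1 then 1 else -1 : ℤ)) : ℝ) = ε i := by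
        intro i
        rcases hε i with h1 | h1
        · simp [h1]
        · have : ¬ ((-1 : ℝ) = 1) := by norm_num
          rw [h1]; simp [this]
      have h1 := hj j
      have h2 : ∑ i, ε i * (v i j / Real.sqrt t) = (∑ i, ε i * v i j) / Real.sqrt t := by
        rw [Finset.sum_div]
        exact Finset.sum_congr rfl (fun i _ => by ring)
      rw [h2, abs_div, abs_of_pos hs, div_le_iff₀ hs] at h1
      calc |∑ i, (((if ε i = 1 then 1 else -1 : ℤ)) : ℝ) * v i j|
          = |∑ i, ε i * v i j| := by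
            congr 1
            exact Finset.sum_congr rfl (fun i _ => by rw [hcast i])
        _ ≤ c * Real.sqrt t := h1

/-- Beck-Fiala form (literal form of S12173) -/
theorem beckFiala (hK : Komlos) :
    ∃ C : ℝ, 0 < C ∧
      ∀ (n m t : ℕ) (S : Fin m → Finset (Fin n)),
        (∀ i : Fin n, (Finset.univ.filter (fun j : Fin m => i ∈ S j)).card ≤ t) →
        ∃ χ : Fin n → ℤ, (∀ i, χ i = 1 ∨ χ i = -1) ∧
          ∀ j : Fin m, ((|∑ i ∈ S j, χ i| : ℤ) : ℝ) ≤ C * Real.sqrt (t : ℝ) := by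
  obtain ⟨c, hc, h⟩ := komlos_scaled hK
  refine ⟨c, hc, ?_⟩
  intro n m t S hS
  obtain ⟨x, hx, hj⟩ := h n m (t : ℝ) (fun i j => if i ∈ S j then 1 else 0) (by positivity) (by
    intro i
    have : ∑ j, (if i ∈ S j then (1 : ℝ) else 0) ^ 2
        = ((Finset.univ.filter (fun j : Fin m => i ∈ S j)).card : ℝ) := by
      rw [Finset.card_filter]
      push_cast
      refine Finset.sum_congr rfl (fun j _ => ?_)
      split_ifs <;> norm_num
    rw [this]
    exact_mod_cast hS i)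
  refine ⟨x, hx, ?_⟩
  intro j
  have h1 := hj j
  have h2 : ∑ i, (x i : ℝ) * (if i ∈ S j then (1 : ℝ) else 0) = ((∑ i ∈ S j, x i : ℤ) : ℝ) := by
    push_cast
    simp [Finset.sum_ite_mem]
  rw [h2] at h1
  push_cast
  push_cast at h1
  exact h1

/-- from the form of the table `kf` -/
theorem komlos_of_kf (h : Pool.Agent.Helper37.KF.ST_KOMLOS) : Komlos := by
  obtain ⟨K, hK, h⟩ := h
  refine ⟨K, hK, ?_⟩
  intro n d v hv
  obtain ⟨x, hx, hS⟩ := h (Fin n) (Fin d) v hv
  exact ⟨x, hx, hS⟩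

/-- S12173 (literal form) from the form of the table `kf` -/
theorem beckFiala_of_kf (h : Pool.Agent.Helper37.KF.ST_KOMLOS) :
    ∃ C : ℝ, 0 < C ∧
      ∀ (n m t : ℕ) (S : Fin m → Finset (Fin n)),
        (∀ i : Fin n, (Finset.univ.filter (fun j : Fin m => i ∈ S j)).card ≤ t) →
        ∃ χ : Fin n → ℤ, (∀ i, χ i = 1 ∨ χ i = -1) ∧
          ∀ j : Fin m, ((|∑ i ∈ S j, χ i| : ℤ) : ℝ) ≤ C * Real.sqrt (t : ℝ) :=
  beckFiala (komlos_of_kf h)

end Pool.Agent.Helper44.KC
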